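import Mathlib

/-!
# There is no infinite tower of abelian extensions of finite connected quandles

Let `G_n` be the inner automorphism group of `Q_n`. The right translations of an abelian extension of
`Q` are indexed by `Q`, therefore `G_(n+1)` is a central extension of `G_n`, and the kernel of
`G_n → G_0` is contained in the `n`-th term of the upper central series of `G_n`. The abelianisation of
`G_n` is cyclic since `Q_n` is connected. It follows that the derived subgroup `D_n` of `G_n` commutes
with that kernel and meets it in a subgroup of the derived subgroup of `D_n`. By the theorem of Schur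
the order of `D_n` is bounded in terms of the order of `D_0`. But `D_n` is transitive on `Q_n`.
-/

set_option autoImplicit false

namespace Pool.Agent.Results.MP_caf75b_al.NoInfiniteTower

open Function

universe u

/-! ### Groups with cyclic abelianisation -/

section Groups

open Subgroup
open scoped commutatorElement

/-- `G` is generated by `t` modulo its derived subgroup -/
def Gen {G : Type u} [Group G] (t : G) : Prop :=
  ∀ g : G, ∃ d ∈ commutator G, ∃ k : ℤ, g = d * t ^ k

theorem map_comm {G H : Type u} [Group G] [Group H] {f : G →* H} (hf : Surjective f) :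
    (commutator G).map f = commutator H := by
  rw [_root_.commutator_def, _root_.commutator_def, map_commutator, ← MonoidHom.range_eq_map,
    MonoidHom.range_eq_top.2 hf]

theorem gen_map {G H : Type u} [Group G] [Group H] {f : G →* H} (hf : Surjective f) {t : G}
    (h : Gen t) : Gen (f t) := by
  intro g
  obtain ⟨g, rfl⟩ := hf g
  obtain ⟨d, hd, k, rfl⟩ := h g
  refine ⟨f d, ?_, k, by rw [map_mul, map_zpow]⟩
  rw [← map_comm hf]
  exact mem_map_of_mem f hd

variable {G : Type u} [Group G]

theorem comm_eq {t : G} (h : Gen t) : commutator G = ⁅commutator G, (⊤ : Subgroup G)⁆ := by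
  apply le_antisymm
  · set N := ⁅commutator G, (⊤ : Subgroup G)⁆ with hN
    have hNn : N.Normal := by
      rw [hN]
      infer_instance
    rw [_root_.commutator_def, commutator_le]
    intro x _ y _
    have hcen : ∀ d ∈ commutator G, ∀ g : G, Commute (QuotientGroup.mk' N d) (QuotientGroup.mk' N g) := by
      intro d hd g
      rw [← commutatorElement_eq_one_iff_commute, ← map_commutatorElement]
      exact (QuotientGroup.eq_one_iff _).2 (commutator_mem_commutator hd (mem_top g))
    obtain ⟨d, hd, k, rfl⟩ := h x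
    obtain ⟨e, he, l, rfl⟩ := h y
    rw [← QuotientGroup.eq_one_iff, ← QuotientGroup.mk'_apply, map_commutatorElement,
      commutatorElement_eq_one_iff_commute]
    have h1 : Commute (QuotientGroup.mk' N (t ^ k)) (QuotientGroup.mk' N (t ^ l)) := by
      have : Commute (t ^ k) (t ^ l) := (Commute.refl t).zpow_zpow k l
      exact this.map _
    rw [map_mul]
    refine (hcen d hd _).mul_left ?_
    rw [map_mul]
    exact ((hcen e he _).symm).mul_right h1
  · rw [_root_.commutator_def]
    exact commutator_mono le_top le_rfl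

theorem hyper_comm (k : ℕ) : ∀ (G : Type u) [Group G] (t : G), Gen t →
    ⁅Subgroup.upperCentralSeries G k, commutator G⁆ = ⊥ := by
  induction k with
  | zero =>
    intro G _ t _
    rw [Subgroup.upperCentralSeries_zero, commutator_bot_left]
  | succ k ih =>
    intro G _ t ht
    rw [commutator_comm, comm_eq ht]
    refine commutator_commutator_eq_bot_of_rotate ?_ ?_
    · rw [eq_bot_iff, ← ih G t ht]
      refine commutator_mono ?_ le_rfl
      rw [commutator_comm, commutator_le]
      intro z hz y _
      exact Subgroup.mem_upperCentralSeries_succ_iff.1 hz y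
    · have hc : ⁅Subgroup.upperCentralSeries G (k + 1), commutator G⁆ ≤ center G := by
        rw [commutator_le]
        intro z hz d hd
        have h1 := ih (G ⧸ center G) (QuotientGroup.mk' (center G) t)
          (gen_map (QuotientGroup.mk'_surjective _) ht)
        have hz' : QuotientGroup.mk' (center G) z ∈ Subgroup.upperCentralSeries (G ⧸ center G) k := by
          have : z ∈ (Subgroup.upperCentralSeries (G ⧸ center G) k).comap (QuotientGroup.mk' (center G)) := by
            rw [Subgroup.comap_upperCentralSeries_quotient_center]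
            exact hz
          exact this
        have hd' : QuotientGroup.mk' (center G) d ∈ commutator (G ⧸ center G) := by
          rw [← map_comm (QuotientGroup.mk'_surjective (center G))]
          exact mem_map_of_mem _ hd
        have h2 : ⁅QuotientGroup.mk' (center G) z, QuotientGroup.mk' (center G) d⁆ = 1 := by
          rw [← mem_bot, ← h1]
          exact commutator_mem_commutator hz' hd'
        rw [← map_commutatorElement] at h2
        exact (QuotientGroup.eq_one_iff _).1 h2
      rw [eq_bot_iff, commutator_le]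
      intro z hz y _
      rw [mem_bot, commutatorElement_eq_one_iff_commute]
      exact (mem_center_iff.1 (hc hz) y).symm

/-- the case of an abelian derived subgroup -/
theorem inter_bot [Finite G] {t : G} (ht : Gen t)
    (hab : ∀ a ∈ commutator G, ∀ b ∈ commutator G, a * b = b * a) (k : ℕ) :
    ∀ x ∈ Subgroup.upperCentralSeries G k, x ∈ commutator G → x = 1 := by
  have hnc : ∀ d ∈ commutator G, ∀ g : G, g * d * g⁻¹ ∈ commutator G := fun d hd g =>
    (inferInstance : (commutator G).Normal).conj_mem d hd g
  have hcm : ∀ d ∈ commutator G, ∀ g : G, ⁅d, g⁆ ∈ commutator G := fun d _ g =>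
    commutator_mem_commutator (mem_top d) (mem_top g)
  -- the homomorphism `d ↦ [d, t]`
  let ψ : commutator G →* commutator G := MonoidHom.mk' (fun d => ⟨⁅(d : G), t⁆, hcm d d.2 t⟩) (by
    rintro ⟨d, hd⟩ ⟨e, he⟩
    apply Subtype.ext
    change ⁅d * e, t⁆ = ⁅d, t⁆ * ⁅e, t⁆
    have h1 := hab ⁅e, t⁆ (hcm e he t) (t * d⁻¹ * t⁻¹) (hnc _ (inv_mem hd) t)
    calc ⁅d * e, t⁆ = d * (⁅e, t⁆ * (t * d⁻¹ * t⁻¹)) := by
          simp only [commutatorElement_def]
          group
      _ = d * ((t * d⁻¹ * t⁻¹) * ⁅e, t⁆) := by rw [h1]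
      _ = ⁅d, t⁆ * ⁅e, t⁆ := by
          simp only [commutatorElement_def]
          group)
  have hpow : ∀ (n : ℕ) (d : G), d ∈ commutator G → ∃ e, (ψ e : G) = ⁅d, t ^ n⁆ := by
    intro n
    induction n with
    | zero => exact fun d _ => ⟨1, by simp⟩
    | succ n ih =>
      intro d hd
      obtain ⟨e, he⟩ := ih d hd
      refine ⟨e * ⟨t ^ n * d * (t ^ n)⁻¹, hnc d hd _⟩, ?_⟩
      rw [map_mul, coe_mul, he]
      change ⁅d, t ^ n⁆ * ⁅t ^ n * d * (t ^ n)⁻¹, t⁆ = _
      simp only [commutatorElement_def, pow_succ]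
      group
  have hsurj : Surjective ψ := by
    have hle : ⁅commutator G, (⊤ : Subgroup G)⁆ ≤ ψ.range.map (commutator G).subtype := by
      rw [commutator_le]
      intro d hd g _
      obtain ⟨e, he, k, rfl⟩ := ht g
      obtain ⟨n, hn⟩ : ∃ n : ℕ, t ^ n = t ^ k :=
        mem_powers_iff_mem_zpowers.2 ⟨k, rfl⟩
      obtain ⟨c, hc⟩ := hpow n d hd
      refine ⟨ψ c, ⟨c, rfl⟩, ?_⟩
      rw [coe_subtype, hc, ← hn]
      have h1 := hab e he (t ^ n * d⁻¹ * (t ^ n)⁻¹) (hnc _ (inv_mem hd) _)
      calc ⁅d, t ^ n⁆ = d * ((t ^ n * d⁻¹ * (t ^ n)⁻¹) * e) * e⁻¹ := by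
            simp only [commutatorElement_def]
            group
        _ = d * (e * (t ^ n * d⁻¹ * (t ^ n)⁻¹)) * e⁻¹ := by rw [h1]
        _ = ⁅d, e * t ^ n⁆ := by
            simp only [commutatorElement_def]
            group
    intro d
    have h1 : (d : G) ∈ ⁅commutator G, (⊤ : Subgroup G)⁆ := by
      rw [← comm_eq ht]
      exact d.2
    obtain ⟨c, ⟨e, rfl⟩, hc⟩ := hle h1
    exact ⟨e, Subtype.ext hc⟩
  have hinj : Injective ψ := Finite.injective_iff_surjective.2 hsurj
  have hcen : ∀ x ∈ commutator G, (∀ g : G, ⁅x, g⁆ = 1) → x = 1 := by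
    intro x hx h
    have h1 : (⟨x, hx⟩ : commutator G) = 1 := by
      apply hinj
      rw [map_one]
      exact Subtype.ext (h t)
    exact congrArg Subtype.val h1
  induction k with
  | zero =>
    intro x hx _
    exact mem_bot.1 hx
  | succ k ih =>
    intro x hx hxd
    exact hcen x hxd fun g => ih _ (Subgroup.mem_upperCentralSeries_succ_iff.1 hx g) (hcm x hxd g)

/-- the number of commutators is at most the square of the index of the centre -/
theorem card_commSet [Finite G] : Nat.card (commutatorSet G) ≤ (center G).index ^ 2 := by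
  have hfin : Finite (G ⧸ center G) := inferInstance
  let F : (G ⧸ center G) × (G ⧸ center G) → G := fun p => ⁅p.1.out, p.2.out⁆
  have hsub : commutatorSet G ⊆ Set.range F := by
    rintro _ ⟨a, b, rfl⟩
    refine ⟨(QuotientGroup.mk a, QuotientGroup.mk b), ?_⟩
    have key : ∀ a : G, ∃ z ∈ center G, (QuotientGroup.mk a : G ⧸ center G).out = a * z := by
      intro a
      have := QuotientGroup.out_eq' (QuotientGroup.mk a : G ⧸ center G)
      rw [QuotientGroup.eq] at this
      refine ⟨a⁻¹ * (QuotientGroup.mk a : G ⧸ center G).out, ?_, by group⟩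
      have h2 := inv_mem this
      simpa using h2
    obtain ⟨z, hz, ha⟩ := key a
    obtain ⟨w, hw, hb⟩ := key b
    change ⁅(QuotientGroup.mk a : G ⧸ center G).out, (QuotientGroup.mk b : G ⧸ center G).out⁆ = _
    rw [ha, hb]
    have hz' := mem_center_iff.1 hz
    have hw' := mem_center_iff.1 hw
    simp only [commutatorElement_def, mul_inv_rev]
    calc a * z * (b * w) * (z⁻¹ * a⁻¹) * (w⁻¹ * b⁻¹)
        = a * (z * (b * w)) * z⁻¹ * a⁻¹ * w⁻¹ * b⁻¹ := by group
      _ = a * ((b * w) * z) * z⁻¹ * a⁻¹ * w⁻¹ * b⁻¹ := by rw [hz' (b * w)]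
      _ = a * b * (w * (a⁻¹)) * w⁻¹ * b⁻¹ := by group
      _ = a * b * (a⁻¹ * w) * w⁻¹ * b⁻¹ := by rw [hw' a⁻¹]
      _ = a * b * a⁻¹ * b⁻¹ := by group
  calc Nat.card (commutatorSet G) ≤ Nat.card (Set.range F) :=
        Nat.card_mono (Set.toFinite _) hsub
    _ ≤ Nat.card ((G ⧸ center G) × (G ⧸ center G)) := Finite.card_range_le F
    _ = (center G).index ^ 2 := by
        rw [Nat.card_prod, ← index_eq_card, sq]

/-- the bound -/
def bd (m : ℕ) : ℕ := m * m ^ (m * m ^ 2 + 1)

theorem bound [Finite G] {H : Type u} [Group H] {t : G} (ht : Gen t) {f : G →* H}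
    (hf : Surjective f) {k : ℕ} (hk : f.ker ≤ Subgroup.upperCentralSeries G k) :
    Nat.card (commutator G) ≤ bd (Nat.card (commutator H)) := by
  set D := commutator G with hD
  let φ : D →* H := f.comp D.subtype
  have hφr : φ.range = commutator H := by
    rw [MonoidHom.range_eq_map, ← map_map, ← MonoidHom.range_eq_map, range_subtype]
    exact map_comm hf
  have hidx : φ.ker.index = Nat.card (commutator H) := by
    rw [index_ker, hφr]
  -- the kernel is central
  have hcen : φ.ker ≤ center D := by
    intro x hx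
    have hx' : (x : G) ∈ f.ker := hx
    rw [mem_center_iff]
    intro d
    apply Subtype.ext
    have h1 := hyper_comm k G t ht
    have h2 : ⁅(x : G), (d : G)⁆ = 1 := by
      rw [← mem_bot, ← h1]
      exact commutator_mem_commutator (hk hx') d.2
    exact ((commutatorElement_eq_one_iff_commute.1 h2).symm : (d : G) * x = x * d)
  -- the kernel is contained in the second derived subgroup
  have hder : φ.ker ≤ commutator D := by
    intro x hx
    have hx' : (x : G) ∈ f.ker := hx
    set N : Subgroup G := ⁅D, D⁆ with hN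
    have hNn : N.Normal := by
      rw [hN]
      infer_instance
    have hs := QuotientGroup.mk'_surjective N
    have hxN : QuotientGroup.mk' N (x : G) = 1 := by
      refine inter_bot (gen_map hs ht) ?_ k _ ?_ ?_
      · rw [← map_comm hs]
        rintro _ ⟨a, ha, rfl⟩ _ ⟨b, hb, rfl⟩
        rw [← commute_iff_eq, ← commutatorElement_eq_one_iff_commute, ← map_commutatorElement]
        exact (QuotientGroup.eq_one_iff _).2 (commutator_mem_commutator ha hb)
      · exact Subgroup.upperCentralSeries.map hs k (mem_map_of_mem _ (hk hx'))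
      · rw [← map_comm hs]
        exact mem_map_of_mem _ x.2
    have h3 : (x : G) ∈ N := (QuotientGroup.eq_one_iff _).1 hxN
    have h4 : (commutator D).map D.subtype = N := by
      rw [_root_.commutator_def, map_commutator, ← MonoidHom.range_eq_map, range_subtype]
    rw [← h4] at h3
    obtain ⟨y, hy, hyx⟩ := h3
    rwa [← Subtype.ext (a1 := y) (a2 := x) hyx]
  -- Schur
  set i := (center D).index with hi
  set m := Nat.card (commutator H) with hm
  have him : i ≤ m := by
    rw [← hidx]
    exact Nat.le_of_dvd (Nat.pos_of_ne_zero FiniteIndex.index_ne_zero) (index_dvd_of_le hcen)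
  have hi0 : 0 < i := Nat.pos_of_ne_zero FiniteIndex.index_ne_zero
  have h5 : Nat.card (commutator D) ≤ m ^ (m * m ^ 2 + 1) := by
    refine (Nat.le_of_dvd (pow_pos hi0 _) (card_commutator_dvd_index_center_pow D)).trans ?_
    refine (Nat.pow_le_pow_left him _).trans (Nat.pow_le_pow_right (hi0.trans_le him) ?_)
    refine Nat.add_le_add_right (Nat.mul_le_mul him ?_) 1
    exact card_commSet.trans (Nat.pow_le_pow_left him 2)
  calc Nat.card D = Nat.card φ.ker * φ.ker.index := (card_mul_index _).symm
    _ ≤ Nat.card (commutator D) * m := by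
        rw [hidx]
        exact Nat.mul_le_mul_right _ (Nat.card_mono (Set.toFinite _) hder)
    _ ≤ m ^ (m * m ^ 2 + 1) * m := Nat.mul_le_mul_right _ h5
    _ = bd m := by rw [bd, mul_comm]

end Groups

/-! ### Quandles -/

section Quandles

open scoped commutatorElement

universe v

variable {X : Type u} {Y : Type u}

/-- quandles -/
structure IsQuandle (op : X → X → X) : Prop where
  idem : ∀ a, op a a = a
  div : ∀ b c, ∃! a, op a b = c
  dist : ∀ a b c, op (op a b) c = op (op a c) (op b c)

/-- the right translation by `a`, as a permutation -/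
noncomputable def rt {op : X → X → X} (h : IsQuandle op) (a : X) : Equiv.Perm X :=
  Equiv.ofBijective (fun x => op x a)
    ⟨fun _ y hxy => (h.div a (op y a)).unique hxy rfl, fun c => (h.div a c).exists⟩

@[simp] theorem rt_apply {op : X → X → X} (h : IsQuandle op) (a x : X) : rt h a x = op x a := rfl

/-- the inner automorphism group: the group generated by the right translations -/
def Inn {op : X → X → X} (h : IsQuandle op) : Subgroup (Equiv.Perm X) :=
  Subgroup.closure (Set.range (rt h))

/-- A quandle is connected if it is not empty and its inner automorphism group is transitive. -/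
def Connected {op : X → X → X} (h : IsQuandle op) : Prop :=
  Nonempty X ∧ ∀ x y, ∃ g ∈ Inn h, g x = y

/-- quandle 2-cocycles with values in an abelian group -/
structure IsCocycle {A : Type v} [AddCommGroup A] (op : X → X → X) (φ : X → X → A) : Prop where
  cond : ∀ x y z, φ x y - φ x z + φ (op x y) z - φ (op x z) (op y z) = 0
  diag : ∀ x, φ x x = 0

/-- the operation of the abelian extension `E(X, A, φ)` -/
def ext {A : Type v} [AddCommGroup A] (op : X → X → X) (φ : X → X → A) :
    X × A → X × A → X × A :=
  fun p q => (op p.1 q.1, p.2 + φ p.1 q.1)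

/-- `(Y, op')` is isomorphic to an abelian extension of `(X, op)` by a nontrivial group. -/
def AbExt (op : X → X → X) (op' : Y → Y → Y) : Prop :=
  ∃ (A : Type v) (_ : AddCommGroup A) (φ : X → X → A), Nontrivial A ∧ IsCocycle op φ ∧
    ∃ e : Y ≃ X × A, ∀ x y, e (op' x y) = ext op φ (e x) (e y)

theorem rt_mem {op : X → X → X} (h : IsQuandle op) (a : X) : rt h a ∈ Inn h :=
  Subgroup.subset_closure ⟨a, rfl⟩

theorem aut {op : X → X → X} (h : IsQuandle op) {g : Equiv.Perm X} (hg : g ∈ Inn h) :
    ∀ x y, g (op x y) = op (g x) (g y) := by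
  induction hg using Subgroup.closure_induction with
  | mem g hg =>
    obtain ⟨a, rfl⟩ := hg
    exact fun x y => h.dist x y a
  | one => exact fun _ _ => rfl
  | mul g k _ _ hg hk =>
    intro x y
    rw [Equiv.Perm.mul_apply, hk, hg]
    rfl
  | inv g _ hg =>
    intro x y
    apply g.injective
    rw [hg]
    simp

/-- Coverings induce central extensions of the inner automorphism groups. -/
theorem cover {op : X → X → X} {op' : Y → Y → Y} (h : IsQuandle op) (h' : IsQuandle op')
    (π : Y → X) (hπ : Surjective π) (hom : ∀ x y, π (op' x y) = op (π x) (π y))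
    (hcov : ∀ a b, π a = π b → ∀ x, op' x a = op' x b) :
    ∃ F : Inn h' →* Inn h, Surjective F ∧ F.ker ≤ Subgroup.center (Inn h') := by
  have hd : ∀ g ∈ Inn h', ∃ k ∈ Inn h, ∀ x, π (g x) = k (π x) := by
    intro g hg
    induction hg using Subgroup.closure_induction with
    | mem g hg =>
      obtain ⟨a, rfl⟩ := hg
      exact ⟨rt h (π a), rt_mem h _, fun x => hom x a⟩
    | one => exact ⟨1, one_mem _, fun _ => rfl⟩
    | mul g g' _ _ hg hg' =>
      obtain ⟨k, hk, hgk⟩ := hg
      obtain ⟨k', hk', hgk'⟩ := hg'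
      exact ⟨k * k', mul_mem hk hk', fun x => by
        rw [Equiv.Perm.mul_apply, hgk, hgk']
        rfl⟩
    | inv g _ hg =>
      obtain ⟨k, hk, hgk⟩ := hg
      refine ⟨k⁻¹, inv_mem hk, fun x => ?_⟩
      apply k.injective
      rw [← hgk]
      simp
  choose! F₀ hF₀ hF₁ using hd
  have huniq : ∀ g k k' : Equiv.Perm X, (∀ x, g (π x) = k (π x)) → g = k := by
    intro g k _ hgk
    apply Equiv.ext
    intro x
    obtain ⟨y, rfl⟩ := hπ x
    exact hgk y
  let F : Inn h' →* Inn h := MonoidHom.mk' (fun g => ⟨F₀ g, hF₀ g g.2⟩) (by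
    intro g g'
    apply Subtype.ext
    refine huniq _ _ 1 fun x => ?_
    change F₀ (g * g') (π x) = F₀ g (F₀ g' (π x))
    rw [← hF₁ _ (mul_mem g.2 g'.2), ← hF₁ _ g'.2, ← hF₁ _ g.2]
    rfl)
  refine ⟨F, ?_, ?_⟩
  · have hs : ∀ k ∈ Inn h, ∃ g : Inn h', (F g : Equiv.Perm X) = k := by
      intro k hk
      induction hk using Subgroup.closure_induction with
      | mem k hk =>
        obtain ⟨a, rfl⟩ := hk
        obtain ⟨b, rfl⟩ := hπ a
        refine ⟨⟨rt h' b, rt_mem h' b⟩, huniq _ _ 1 fun x => ?_⟩
        change F₀ (rt h' b) (π x) = _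
        rw [← hF₁ _ (rt_mem h' b)]
        exact hom x b
      | one => exact ⟨1, by rw [map_one]; rfl⟩
      | mul k k' _ _ hk hk' =>
        obtain ⟨g, hg⟩ := hk
        obtain ⟨g', hg'⟩ := hk'
        exact ⟨g * g', by rw [map_mul, Subgroup.coe_mul, hg, hg']⟩
      | inv k _ hk =>
        obtain ⟨g, hg⟩ := hk
        exact ⟨g⁻¹, by rw [map_inv, Subgroup.coe_inv, hg]⟩
    rintro ⟨k, hk⟩
    obtain ⟨g, hg⟩ := hs k hk
    exact ⟨g, Subtype.ext hg⟩
  · intro g hg
    have h1 : ∀ x, π ((g : Equiv.Perm Y) x) = π x := by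
      intro x
      rw [hF₁ _ g.2]
      have : (F g : Equiv.Perm X) = 1 := by
        rw [MonoidHom.mem_ker.1 hg]
        rfl
      change (F g : Equiv.Perm X) (π x) = π x
      rw [this]
      rfl
    have h2 : ∀ k ∈ Inn h', k * (g : Equiv.Perm Y) = g * k := by
      intro k hk
      induction hk using Subgroup.closure_induction with
      | mem k hk =>
        obtain ⟨a, rfl⟩ := hk
        ext x
        rw [Equiv.Perm.mul_apply, Equiv.Perm.mul_apply, rt_apply, rt_apply, aut h' g.2]
        exact (hcov _ _ (h1 a) _).symm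
      | one => rw [one_mul, mul_one]
      | mul k k' _ _ hk hk' => rw [mul_assoc, hk', ← mul_assoc, hk, mul_assoc]
      | inv k _ hk =>
        rw [inv_mul_eq_iff_eq_mul, ← mul_assoc, hk, mul_assoc, mul_inv_cancel, mul_one]
    rw [Subgroup.mem_center_iff]
    intro k
    exact Subtype.ext (h2 k k.2)

theorem gen_rt {op : X → X → X} {h : IsQuandle op} (hc : Connected h) (a : X) :
    Gen (⟨rt h a, rt_mem h a⟩ : Inn h) := by
  set t : Inn h := ⟨rt h a, rt_mem h a⟩ with ht
  have hS : commutator (Inn h) ⊔ Subgroup.zpowers t = ⊤ := by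
    rw [eq_top_iff]
    have h1 : Subgroup.closure (((↑) : Inn h → Equiv.Perm X) ⁻¹' (Set.range (rt h))) = ⊤ :=
      Subgroup.closure_closure_coe_preimage
    rw [← h1, Subgroup.closure_le]
    rintro ⟨_, hk⟩ ⟨b, rfl⟩
    obtain ⟨g, hg, rfl⟩ := hc.2 a b
    have h2 : (⟨rt h (g a), hk⟩ : Inn h) = ⁅(⟨g, hg⟩ : Inn h), t⁆ * t := by
      apply Subtype.ext
      have h3 : rt h (g a) = g * rt h a * g⁻¹ := by
        ext x
        rw [Equiv.Perm.mul_apply, Equiv.Perm.mul_apply, rt_apply, rt_apply, aut h hg]
        simp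
      change rt h (g a) = g * rt h a * g⁻¹ * (rt h a)⁻¹ * rt h a
      rw [h3]
      group
    rw [h2]
    refine mul_mem (Subgroup.mem_sup_left ?_) (Subgroup.mem_sup_right (Subgroup.mem_zpowers t))
    exact Subgroup.commutator_mem_commutator (Subgroup.mem_top _) (Subgroup.mem_top _)
  intro g
  have hg : g ∈ commutator (Inn h) ⊔ Subgroup.zpowers t := by
    rw [hS]
    exact Subgroup.mem_top g
  obtain ⟨d, hd, z, ⟨k, rfl⟩, rfl⟩ := Subgroup.mem_sup_of_normal_left.1 hg
  exact ⟨d, hd, k, rfl⟩

theorem card_le {op : X → X → X} {h : IsQuandle op} (hc : Connected h) [Finite X] :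
    Nat.card X ≤ Nat.card (commutator (Inn h)) := by
  obtain ⟨a⟩ := hc.1
  have hs : Surjective fun d : commutator (Inn h) => ((d : Inn h) : Equiv.Perm X) a := by
    intro x
    obtain ⟨g, hg, rfl⟩ := hc.2 a x
    obtain ⟨d, hd, k, hk⟩ := gen_rt hc a ⟨g, hg⟩
    refine ⟨⟨d, hd⟩, ?_⟩
    have h1 : g = (d : Equiv.Perm X) * (rt h a) ^ k := congrArg Subtype.val hk
    have h2 : ((rt h a) ^ k) a = a := by
      have : rt h a ∈ MulAction.stabilizer (Equiv.Perm X) a := h.idem a
      exact Subgroup.zpow_mem _ this k
    rw [h1, Equiv.Perm.mul_apply, h2]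
  exact Nat.card_le_card_of_surjective _ hs

theorem comap_ucs {G H : Type u} [Group G] [Group H] {f : G →* H}
    (hk : f.ker ≤ Subgroup.center G) (n : ℕ) :
    (Subgroup.upperCentralSeries H n).comap f ≤ Subgroup.upperCentralSeries G (n + 1) := by
  induction n with
  | zero =>
    rw [Subgroup.upperCentralSeries_one]
    exact hk
  | succ n ih =>
    intro x hx
    rw [Subgroup.mem_upperCentralSeries_succ_iff]
    intro y
    apply ih
    rw [Subgroup.mem_comap, map_commutatorElement]
    exact Subgroup.mem_upperCentralSeries_succ_iff.1 hx (f y)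

variable {Q : ℕ → Type u} {op : ∀ n, Q n → Q n → Q n}

theorem tower_hom (h : ∀ n, IsQuandle (op n)) {N : ℕ}
    (hE : ∀ n < N, AbExt.{u, v} (op n) (op (n + 1))) (n : ℕ) (hn : n ≤ N) :
    ∃ F : Inn (h n) →* Inn (h 0), Surjective F ∧
      F.ker ≤ Subgroup.upperCentralSeries (Inn (h n)) n := by
  induction n with
  | zero =>
    refine ⟨MonoidHom.id _, surjective_id, ?_⟩
    intro x hx
    exact hx
  | succ n ih =>
    obtain ⟨F, hF, hFk⟩ := ih (Nat.le_of_succ_le hn)
    obtain ⟨A, _, φ, _, _, e, he⟩ := hE n hn
    obtain ⟨P, hP, hPk⟩ := cover (h n) (h (n + 1)) (fun y => (e y).1)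
      (Prod.fst_surjective.comp e.surjective) (fun x y => by
        simp only [he]
        rfl) (fun a b hab x => by
        have hab' : (e a).1 = (e b).1 := hab
        apply e.injective
        rw [he, he]
        simp only [ext, hab'])
    refine ⟨F.comp P, hF.comp hP, ?_⟩
    intro x hx
    refine comap_ucs hPk n ?_
    exact hFk hx

/-- **Towers of abelian extensions.** The order of a finite connected quandle at the top of a tower of
abelian extensions over the finite quandle `Q 0` is bounded in terms of the order of the derived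
subgroup of the inner automorphism group of `Q 0`, however long the tower; there is no infinite
tower. -/
theorem result :
    (∀ (N : ℕ) (Q : ℕ → Type u) (op : ∀ n, Q n → Q n → Q n) (h : ∀ n, IsQuandle (op n)),
      Finite (Q N) → Connected (h N) → (∀ n < N, AbExt.{u, v} (op n) (op (n + 1))) →
      Nat.card (Q N) ≤ bd (Nat.card (commutator (Inn (h 0))))) ∧
    ¬ ∃ (Q : ℕ → Type u) (op : ∀ n, Q n → Q n → Q n) (h : ∀ n, IsQuandle (op n)),
      (∀ n, Finite (Q n)) ∧ (∀ n, Connected (h n)) ∧
        ∀ n, AbExt.{u, v} (op n) (op (n + 1)) := by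
  have key : ∀ (N : ℕ) (Q : ℕ → Type u) (op : ∀ n, Q n → Q n → Q n)
      (h : ∀ n, IsQuandle (op n)), Finite (Q N) → Connected (h N) →
      (∀ n < N, AbExt.{u, v} (op n) (op (n + 1))) →
      Nat.card (Q N) ≤ bd (Nat.card (commutator (Inn (h 0)))) := by
    intro N Q op h hfin hcon hE
    obtain ⟨F, hF, hFk⟩ := tower_hom h hE N le_rfl
    obtain ⟨a⟩ := hcon.1
    exact (card_le hcon).trans (bound (gen_rt hcon a) hF hFk)
  refine ⟨key, ?_⟩
  rintro ⟨Q, op, h, hfin, hcon, hE⟩
  have hgrow : ∀ n, 2 ^ n ≤ Nat.card (Q n) := by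
    intro n
    induction n with
    | zero =>
      have := (hcon 0).1
      exact Nat.one_le_iff_ne_zero.2 Nat.card_pos.ne'
    | succ n ih =>
      obtain ⟨A, _, φ, hA, _, e, _⟩ := hE n
      have := (hcon (n + 1)).1
      have := (hcon n).1
      have h1 : Nat.card (Q (n + 1)) = Nat.card (Q n) * Nat.card A := by
        rw [Nat.card_congr e, Nat.card_prod]
      have h2 : 0 < Nat.card (Q (n + 1)) := Nat.card_pos
      have h3 : Nat.card A ≠ 0 := by
        intro h0
        rw [h1, h0, mul_zero] at h2
        exact lt_irrefl _ h2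
      have h4 : Finite A := Nat.finite_of_card_ne_zero h3
      have h5 : 1 < Nat.card A := Finite.one_lt_card
      rw [h1, pow_succ]
      exact Nat.mul_le_mul ih h5
  obtain ⟨B, hB⟩ : ∃ B, B = bd (Nat.card (commutator (Inn (h 0)))) := ⟨_, rfl⟩
  have h1 := hgrow B
  have h2 := key B Q op h (hfin B) (hcon B) fun n _ => hE n
  rw [← hB] at h2
  have h3 : B < 2 ^ B := Nat.lt_two_pow_self
  exact absurd (h3.trans_le (h1.trans h2)) (lt_irrefl _)

end Quandles

end Pool.Agent.Results.MP_caf75b_al.NoInfiniteTower
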